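import Pool.Agent.H82.C3.Stm
import Pool.Graph.R_pool_sql_team_seeded_1acbe0a2.Y587.CT.FLD

/-!
# Project C3, part BV3
-/

set_option autoImplicit false

namespace Pool.Agent.H37.C3

open Finset NumberField Pool.Agent.H82.C3

/-- the vertices with small `d` -/
theorem bv3_small (h1 : S_REP) (B : ℕ) (hB : 1 ≤ B) : ∃ C : ℝ, 0 < C ∧ ∀ T : ℕ, 1 ≤ T →
    ∀ V : Finset (ℤ × ℤ), ∀ dd ff : ℤ × ℤ → ℕ,
    (∀ v ∈ V, 1 ≤ v.1 ∧ v.1 ≤ B * (T : ℤ) ^ 4 ∧ 1 ≤ dd v ∧ DD v.1 v.2 = dd v * (ff v : ℤ) ^ 2 ∧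
      (dd v : ℝ) ≤ 7 * (T : ℝ) ^ (39 / 10 : ℝ)) →
    (V.card : ℝ) ≤ C * (T : ℝ) ^ (8 - 1 / 20 : ℝ) := by
  obtain ⟨C, hC, h⟩ := h1 (1 / 400) (by norm_num)
  refine ⟨C * (4 * (B : ℝ) ^ 3) ^ (1 / 400 : ℝ) * (B * 8), by positivity, ?_⟩
  intro T hT V dd ff hV
  have hT1 : (1 : ℝ) ≤ T := by exact_mod_cast hT
  have hT0 : (0 : ℝ) < T := by linarith
  obtain ⟨F, hF⟩ : ∃ F : ℝ, F = C * (4 * (B : ℝ) ^ 3 * (T : ℝ) ^ 12) ^ (1 / 400 : ℝ) := ⟨_, rfl⟩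
  have hF0 : 0 ≤ F := by rw [hF]; positivity
  obtain ⟨D1, hD1⟩ : ∃ D1 : ℕ, D1 = ⌊7 * (T : ℝ) ^ (39 / 10 : ℝ)⌋₊ := ⟨_, rfl⟩
  have key := Finset.card_le_mul_card_image_of_maps_to (s := V)
    (t := (Finset.Icc (1 : ℤ) (B * (T : ℤ) ^ 4)) ×ˢ (range (D1 + 1)))
    (f := fun v => (v.1, dd v)) ?_ ⌊F⌋₊ ?_
  · have hc : ((Finset.Icc (1 : ℤ) (B * (T : ℤ) ^ 4)) ×ˢ (range (D1 + 1))).card =
        (B * T ^ 4) * (D1 + 1) := by
      rw [card_product, Int.card_Icc, card_range]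
      congr 1
      have : ((B : ℤ) * (T : ℤ) ^ 4 + 1 - 1) = ((B * T ^ 4 : ℕ) : ℤ) := by push_cast; ring
      rw [this, Int.toNat_natCast]
    rw [hc] at key
    have key2 : (V.card : ℝ) ≤ (⌊F⌋₊ : ℝ) * ((B * (T : ℝ) ^ 4) * (D1 + 1)) := by
      exact_mod_cast key
    have hfl : (⌊F⌋₊ : ℝ) ≤ F := Nat.floor_le hF0
    have hTp : (1 : ℝ) ≤ (T : ℝ) ^ (39 / 10 : ℝ) := Real.one_le_rpow hT1 (by norm_num)
    have hD1' : (D1 : ℝ) + 1 ≤ 8 * (T : ℝ) ^ (39 / 10 : ℝ) := by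
      have : (D1 : ℝ) ≤ 7 * (T : ℝ) ^ (39 / 10 : ℝ) := by
        rw [hD1]; exact Nat.floor_le (by positivity)
      linarith
    have hB0 : (0 : ℝ) < B := by exact_mod_cast hB
    have e1 : F = C * (4 * (B : ℝ) ^ 3) ^ (1 / 400 : ℝ) * (T : ℝ) ^ (12 / 400 : ℝ) := by
      rw [hF, Real.mul_rpow (by positivity) (by positivity), ← Real.rpow_natCast (T : ℝ) 12,
        ← Real.rpow_mul hT0.le]
      norm_num
      ring
    calc (V.card : ℝ) ≤ (⌊F⌋₊ : ℝ) * ((B * (T : ℝ) ^ 4) * (D1 + 1)) := key2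
      _ ≤ F * ((B * (T : ℝ) ^ 4) * (8 * (T : ℝ) ^ (39 / 10 : ℝ))) := by gcongr
      _ = C * (4 * (B : ℝ) ^ 3) ^ (1 / 400 : ℝ) * (B * 8) *
          ((T : ℝ) ^ (12 / 400 : ℝ) * (T : ℝ) ^ 4 * (T : ℝ) ^ (39 / 10 : ℝ)) := by
        rw [e1]; ring
      _ = C * (4 * (B : ℝ) ^ 3) ^ (1 / 400 : ℝ) * (B * 8) * (T : ℝ) ^ (793 / 100 : ℝ) := by
        rw [← Real.rpow_natCast (T : ℝ) 4, ← Real.rpow_add hT0, ← Real.rpow_add hT0]
        norm_num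
      _ ≤ C * (4 * (B : ℝ) ^ 3) ^ (1 / 400 : ℝ) * (B * 8) * (T : ℝ) ^ (8 - 1 / 20 : ℝ) := by
        gcongr
        norm_num
  · intro v hv
    obtain ⟨hv1, hv2, -, -, hv5⟩ := hV v hv
    rw [mem_product, mem_Icc, mem_range]
    refine ⟨⟨hv1, hv2⟩, ?_⟩
    have : dd v ≤ D1 := by
      rw [hD1]; exact Nat.le_floor hv5
    exact Nat.lt_succ_of_le this
  · rintro ⟨m, d⟩ hb
    rw [mem_product, mem_Icc] at hb
    obtain ⟨⟨hm1, hm2⟩, -⟩ := hb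
    dsimp only at hm1 hm2
    apply Nat.le_floor
    by_cases hd : 1 ≤ d
    · obtain ⟨N, hN⟩ : ∃ N : ℕ, (N : ℤ) = 4 * m ^ 3 :=
        ⟨(4 * m ^ 3).toNat, Int.toNat_of_nonneg (by positivity)⟩
      have hN1 : 1 ≤ N := by
        have : (1 : ℤ) ≤ m ^ 3 := one_le_pow₀ hm1
        omega
      have hinj : Set.InjOn (fun v : ℤ × ℤ => (v.2, (ff v : ℤ)))
          ((V.filter (fun v => (v.1, dd v) = (m, d)) : Finset (ℤ × ℤ)) : Set (ℤ × ℤ)) := by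
        intro v hv w hw hvw
        simp only [coe_filter, Set.mem_ofPred_eq, Prod.mk.injEq] at hv hw hvw
        exact Prod.ext (hv.2.1.trans hw.2.1.symm) hvw.1
      rw [← card_image_of_injOn hinj]
      have h5 := h d N hd hN1 ((V.filter (fun v => (v.1, dd v) = (m, d))).image
        (fun v : ℤ × ℤ => (v.2, (ff v : ℤ)))) ?_
      · refine h5.trans ?_
        rw [hF]
        have hNr : (N : ℝ) ≤ 4 * (B : ℝ) ^ 3 * (T : ℝ) ^ 12 := by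
          have h6 : (N : ℤ) ≤ 4 * (B : ℤ) ^ 3 * (T : ℤ) ^ 12 := by
            rw [hN]
            have h7 : m ^ 3 ≤ ((B : ℤ) * (T : ℤ) ^ 4) ^ 3 := by
              gcongr
            calc 4 * m ^ 3 ≤ 4 * ((B : ℤ) * (T : ℤ) ^ 4) ^ 3 := by linarith
              _ = 4 * (B : ℤ) ^ 3 * (T : ℤ) ^ 12 := by ring
          exact_mod_cast h6
        gcongr
      · intro z hz
        rw [mem_image] at hz
        obtain ⟨v, hv, rfl⟩ := hz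
        rw [mem_filter, Prod.mk.injEq] at hv
        obtain ⟨-, -, -, h4, -⟩ := hV v hv.1
        rw [hv.2.1, hv.2.2, DD] at h4
        dsimp only
        rw [hN]
        linarith
    · have : V.filter (fun v => (v.1, dd v) = (m, d)) = ∅ := by
        rw [filter_eq_empty_iff]
        intro v hv hvm
        rw [Prod.mk.injEq] at hvm
        have := (hV v hv).2.2.1
        omega
      rw [this, card_empty]
      simpa using hF0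

/-- the vertices with large `d` -/
theorem bv3_large (h2 : S_CGD) (h3 : S_R3) (B : ℕ) (hB : 1 ≤ B) : ∃ C : ℝ, 0 < C ∧ ∀ T : ℕ, 1 ≤ T →
    ∀ V : Finset (ℤ × ℤ), ∀ dd ff : ℤ × ℤ → ℕ,
    (∀ v ∈ V, 1 ≤ v.1 ∧ v.1 ≤ B * (T : ℤ) ^ 4 ∧ 1 ≤ v.2 ∧ IsCoprime v.1 v.2 ∧ Squarefree (dd v) ∧
      dd v % 4 = 3 ∧ 1 ≤ ff v ∧ DD v.1 v.2 = dd v * (ff v : ℤ) ^ 2 ∧
      7 * (T : ℝ) ^ (39 / 10 : ℝ) ≤ (dd v : ℝ) ∧ (dd v : ℝ) ≤ B * (T : ℝ) ^ (4 + 1 / 50 : ℝ)) →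
    (V.card : ℝ) ≤ C * (T : ℝ) ^ (8 - 1 / 20 : ℝ) := by
  obtain ⟨C, hC, h⟩ := h3 (1 / 100) (by norm_num)
  have hB1 : (1 : ℝ) ≤ B := by exact_mod_cast hB
  have hB0 : (0 : ℝ) < B := by linarith
  refine ⟨300 * B * (B + C * (B : ℝ) ^ (126 / 100 : ℝ)), by positivity, ?_⟩
  intro T hT V dd ff hV
  have hT1 : (1 : ℝ) ≤ T := by exact_mod_cast hT
  have hT0 : (0 : ℝ) < T := by linarith
  obtain ⟨M, hM⟩ : ∃ M : ℕ, M = ⌊B * (T : ℝ) ^ (4 + 1 / 50 : ℝ)⌋₊ := ⟨_, rfl⟩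
  have hM1 : 1 ≤ M := by
    rw [hM, Nat.one_le_floor_iff]
    have : (1 : ℝ) ≤ (T : ℝ) ^ (4 + 1 / 50 : ℝ) := Real.one_le_rpow hT1 (by norm_num)
    nlinarith
  have hMr : (M : ℝ) ≤ B * (T : ℝ) ^ (4 + 1 / 50 : ℝ) := by
    rw [hM]; exact Nat.floor_le (by positivity)
  have hmaps : ∀ v ∈ V, dd v ∈ Icc 1 M := by
    intro v hv
    obtain ⟨-, -, -, -, -, h6, -, -, -, h10⟩ := hV v hv
    rw [mem_Icc]
    refine ⟨by omega, ?_⟩
    rw [hM]; exact Nat.le_floor h10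
  have hfib : ∀ d ∈ Icc 1 M, ((V.filter (fun v => dd v = d)).card : ℝ) ≤
      (300 * B * (T : ℝ) ^ (205 / 100 : ℝ)) * (1 + R3 d) := by
    intro d hd
    rcases (V.filter (fun v => dd v = d)).eq_empty_or_nonempty with he | ⟨v0, hv0⟩
    · rw [he, card_empty, Nat.cast_zero]
      positivity
    · rw [mem_filter] at hv0
      obtain ⟨hv0, hv0d⟩ := hv0
      obtain ⟨-, -, -, -, hsq, h6, -, -, h9, -⟩ := hV v0 hv0
      rw [hv0d] at hsq h6 h9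
      have hTp : (1 : ℝ) ≤ (T : ℝ) ^ (39 / 10 : ℝ) := Real.one_le_rpow hT1 (by norm_num)
      have hd7 : 7 ≤ d := by
        have : (7 : ℝ) ≤ d := by linarith
        exact_mod_cast this
      obtain ⟨K, hNF, hfin, hdisc, -, -⟩ := Pool.Agent.Y587.CT.t_FLD d hsq h6
      have hY : 1 ≤ B * T ^ 4 := Nat.one_le_iff_ne_zero.2 (by positivity)
      have h10 := h2 K d hfin hsq h6 hd7 hdisc (B * T ^ 4) hY (V.filter (fun v => dd v = d)) ?_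
      · refine h10.trans ?_
        have hsd : (T : ℝ) ^ (195 / 100 : ℝ) ≤ Real.sqrt d := by
          apply Real.le_sqrt_of_sq_le
          rw [← Real.rpow_natCast, ← Real.rpow_mul hT0.le]
          norm_num
          linarith
        have hq1 : ((B * T ^ 4 : ℕ) : ℝ) / Real.sqrt d ≤ B * (T : ℝ) ^ (205 / 100 : ℝ) := by
          have hpos : (0 : ℝ) < (T : ℝ) ^ (195 / 100 : ℝ) := by positivity
          rw [div_le_iff₀ (lt_of_lt_of_le hpos hsd)]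
          have e : ((B * T ^ 4 : ℕ) : ℝ) = B * (T : ℝ) ^ (205 / 100 : ℝ) * (T : ℝ) ^ (195 / 100 : ℝ) := by
            rw [mul_assoc, ← Real.rpow_add hT0]
            norm_num
          rw [e]
          gcongr
        have hq2 : Real.sqrt ((B * T ^ 4 : ℕ) : ℝ) ≤ B * (T : ℝ) ^ (205 / 100 : ℝ) := by
          have h11 : (T : ℝ) ^ 2 ≤ (T : ℝ) ^ (205 / 100 : ℝ) := by
            rw [← Real.rpow_natCast]
            apply Real.rpow_le_rpow_of_exponent_le hT1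
            norm_num
          refine le_trans ?_ (mul_le_mul_of_nonneg_left h11 hB0.le)
          apply Real.sqrt_le_iff.2
          refine ⟨by positivity, ?_⟩
          push_cast
          have h12 : (B : ℝ) ≤ (B : ℝ) ^ 2 := by nlinarith
          calc (B : ℝ) * (T : ℝ) ^ 4 ≤ (B : ℝ) ^ 2 * (T : ℝ) ^ 4 := by gcongr
            _ = ((B : ℝ) * (T : ℝ) ^ 2) ^ 2 := by ring
        have hq3 : (1 : ℝ) ≤ B * (T : ℝ) ^ (205 / 100 : ℝ) := by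
          have : (1 : ℝ) ≤ (T : ℝ) ^ (205 / 100 : ℝ) := Real.one_le_rpow hT1 (by norm_num)
          nlinarith
        have hR : (0 : ℝ) ≤ 100 * (1 + (R3 d : ℝ)) := by positivity
        calc 100 * (1 + (R3 d : ℝ)) * (((B * T ^ 4 : ℕ) : ℝ) / Real.sqrt d +
              Real.sqrt ((B * T ^ 4 : ℕ) : ℝ) + 1)
            ≤ 100 * (1 + (R3 d : ℝ)) * (B * (T : ℝ) ^ (205 / 100 : ℝ) +
              B * (T : ℝ) ^ (205 / 100 : ℝ) + B * (T : ℝ) ^ (205 / 100 : ℝ)) := by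
              apply mul_le_mul_of_nonneg_left _ hR
              linarith
          _ = _ := by ring
      · intro v hv
        rw [mem_filter] at hv
        obtain ⟨h1, h2, h3, h4, -, -, h7, h8, -, -⟩ := hV v hv.1
        refine ⟨h1, by exact_mod_cast h2, h3, h4, ff v, h7, ?_⟩
        rw [h8, hv.2]
  have hsum : (V.card : ℝ) ≤ (300 * B * (T : ℝ) ^ (205 / 100 : ℝ)) *
      ((M : ℝ) + ∑ d ∈ Icc 1 M, (R3 d : ℝ)) := by
    rw [card_eq_sum_card_fiberwise hmaps]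
    push_cast
    refine (sum_le_sum hfib).trans ?_
    rw [← mul_sum, sum_add_distrib]
    simp
  have h13 := h M hM1
  have h14 : (M : ℝ) ^ (5 / 4 + 1 / 100 : ℝ) ≤
      (B : ℝ) ^ (126 / 100 : ℝ) * (T : ℝ) ^ (50652 / 10000 : ℝ) := by
    calc (M : ℝ) ^ (5 / 4 + 1 / 100 : ℝ) ≤ (B * (T : ℝ) ^ (4 + 1 / 50 : ℝ)) ^ (5 / 4 + 1 / 100 : ℝ) := by
          gcongr
      _ = (B : ℝ) ^ (126 / 100 : ℝ) * (T : ℝ) ^ (50652 / 10000 : ℝ) := by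
        rw [Real.mul_rpow hB0.le (by positivity), ← Real.rpow_mul hT0.le]
        norm_num
  have h15 : (M : ℝ) ≤ B * (T : ℝ) ^ (50652 / 10000 : ℝ) := by
    refine hMr.trans ?_
    gcongr
    norm_num
  have h16 : (M : ℝ) + ∑ d ∈ Icc 1 M, (R3 d : ℝ) ≤
      (B + C * (B : ℝ) ^ (126 / 100 : ℝ)) * (T : ℝ) ^ (50652 / 10000 : ℝ) := by
    have : C * (M : ℝ) ^ (5 / 4 + 1 / 100 : ℝ) ≤
        C * ((B : ℝ) ^ (126 / 100 : ℝ) * (T : ℝ) ^ (50652 / 10000 : ℝ)) := by gcongr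
    linarith
  calc (V.card : ℝ) ≤ (300 * B * (T : ℝ) ^ (205 / 100 : ℝ)) *
        ((M : ℝ) + ∑ d ∈ Icc 1 M, (R3 d : ℝ)) := hsum
    _ ≤ (300 * B * (T : ℝ) ^ (205 / 100 : ℝ)) *
        ((B + C * (B : ℝ) ^ (126 / 100 : ℝ)) * (T : ℝ) ^ (50652 / 10000 : ℝ)) := by gcongr
    _ = 300 * B * (B + C * (B : ℝ) ^ (126 / 100 : ℝ)) *
        ((T : ℝ) ^ (205 / 100 : ℝ) * (T : ℝ) ^ (50652 / 10000 : ℝ)) := by ring
    _ ≤ 300 * B * (B + C * (B : ℝ) ^ (126 / 100 : ℝ)) * (T : ℝ) ^ (8 - 1 / 20 : ℝ) := by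
      rw [← Real.rpow_add hT0]
      gcongr
      norm_num

theorem t_BV3 (h1 : S_REP) (h2 : S_CGD) (h3 : S_R3) : S_BV3 := by
  intro A
  obtain ⟨C1, hC1, k1⟩ := bv3_small h1 (A + 1) (by omega)
  obtain ⟨C2, hC2, k2⟩ := bv3_large h2 h3 (A + 1) (by omega)
  refine ⟨C1 + C2, by positivity, ?_⟩
  intro T hT V hV
  have hT1 : (1 : ℝ) ≤ T := by exact_mod_cast hT
  have hch : ∀ v : ℤ × ℤ, ∃ d f : ℕ, v ∈ V → Squarefree d ∧ d % 4 = 3 ∧ 1 ≤ f ∧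
      DD v.1 v.2 = d * f ^ 2 ∧ (d : ℝ) ≤ A * (T : ℝ) ^ (4 + 1 / 50 : ℝ) := by
    intro v
    by_cases hv : v ∈ V
    · obtain ⟨-, -, d, f, h⟩ := hV v hv
      exact ⟨d, f, fun _ => h⟩
    · exact ⟨0, 0, fun h => absurd h hv⟩
  choose dd ff hdf using hch
  have hTp : (0 : ℝ) ≤ (T : ℝ) ^ (4 + 1 / 50 : ℝ) := by positivity
  have hTz : (0 : ℤ) ≤ (T : ℤ) ^ 4 := by positivity
  have e1 := k1 T hT (V.filter (fun v => (dd v : ℝ) ≤ 7 * (T : ℝ) ^ (39 / 10 : ℝ))) dd ff ?_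
  · have e2 := k2 T hT (V.filter (fun v => ¬ (dd v : ℝ) ≤ 7 * (T : ℝ) ^ (39 / 10 : ℝ))) dd ff ?_
    · have e3 := card_filter_add_card_filter_not (s := V)
        (fun v => (dd v : ℝ) ≤ 7 * (T : ℝ) ^ (39 / 10 : ℝ))
      rw [← e3]
      push_cast
      linarith
    · intro v hv
      rw [mem_filter, not_le] at hv
      obtain ⟨⟨g1, g2, g3, g4⟩, g5, -⟩ := hV v hv.1
      obtain ⟨f1, f2, f3, f4, f5⟩ := hdf v hv.1
      refine ⟨g1, ?_, g3, g5, f1, f2, f3, f4, hv.2.le, ?_⟩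
      · push_cast
        nlinarith
      · push_cast
        nlinarith
  · intro v hv
    rw [mem_filter] at hv
    obtain ⟨⟨g1, g2, g3, g4⟩, g5, -⟩ := hV v hv.1
    obtain ⟨f1, f2, f3, f4, f5⟩ := hdf v hv.1
    refine ⟨g1, ?_, by omega, f4, hv.2⟩
    push_cast
    nlinarith

end Pool.Agent.H37.C3
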